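import Pool.Agent.R737.PK.Final
import Pool.Agent.R737.PK.Main
import Pool.Agent.R737.PK.Rec
import Pool.Agent.R68.PK.EMP
import Pool.Agent.R68.PK.COMB
import Pool.Agent.R737.PK.ADM
import Pool.Agent.R737.PK.GOOD
import Pool.Agent.R737.PK.LIN
import Pool.Agent.R737.PK.PURE
import Pool.Agent.R868.PK.STEP
import Pool.Agent.R171.PK.EVAL
import Pool.Agent.R265.PK.Split
import Pool.Agent.R569.PK.C
import Pool.Agent.R668.PK.B
import Pool.Agent.R737.PK.MOM
import Pool.Agent.R737.PK.Z
import Pool.Agent.R827.PK.GAP2
import Pool.Agent.R827.PK.BASE
import Pool.Agent.R420.PK.VAL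
import Pool.Agent.R420.PK.INT
import Pool.Agent.R773.PK.A
import Pool.Agent.R737.PK.BZ

/-!
# Peak polynomials with only real roots

The full answer to Q1 of MP_8cb80e_co: the statement is true.

For a nonempty admissible set `S` (the set of the peaks of some permutation) there is exactly one
polynomial `p` with rational coefficients such that the number of the permutations of `n` letters with
peak set `S` is `p(n) 2 ^ (n - |S| - 1)` for all `n ≥ max S`; and if all the complex roots of `p` are real,
then they are integers and `S` belongs to the family `𝓛` (`InL`):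
`{2}`, `{2, 4}`, `{3}`, `{3, 5}`, the sets whose two largest elements are `m < m + 3`, and the sets whose
three largest elements are `m < m + 3 < m + 5`.

The proof.  With `m = max S` one has `p(m + z) = binom(m + z, m) ∫ s ^ z ρ(s) ds` over `[0, 1]`, where the
polynomial `ρ` is antisymmetric about `1 / 2` and increasing on `[0, 1]` (by induction along `S`).  This
gives the signs and good bounds of the values of `p` between its integer roots, and two discrete
concavity inequalities for real-rooted polynomials with these roots are violated unless `S ∈ 𝓛`.
-/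

set_option autoImplicit false

open Polynomial Pool.Agent.R737.PK

namespace Pool.Agent.Results.MP_8cb80e_co.RealRoots

/-- The answer to Q1: peak polynomials with only real roots have integer roots and the set is in `𝓛`. -/
theorem result :
    ∀ S : Finset ℕ, S.Nonempty → (∃ n, count S n ≠ 0) →
      (∃! p : ℚ[X], IsPeakPolynomial S p) ∧
      ∀ p : ℚ[X], IsPeakPolynomial S p → (∀ z : ℂ, aeval z p = 0 → z.im = 0) →
        (∀ z : ℂ, aeval z p = 0 → ∃ a : ℤ, z = a) ∧ InL S := by
  have hEmp : StEmp := Pool.Agent.R68.PK.stEmp
  have hComb : StComb := Pool.Agent.R68.PK.stComb (rec_thm hEmp) hEmp stAdm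
  have hStep : StStep := Pool.Agent.R868.PK.stStep
  have hPure : StPure := stPure
  have hGood : StGood := stGood
  have hMom : StMom := stMom
  have hReal : StReal := stReal
  have hEval : StEval := stEval
  have hGap : StGap2 := Pool.Agent.R827.PK.stGap2
  have hVal : StVal := stVal hStep hGood hMom hReal hEval hGap
  have hZ : StZ := stZ hVal hMom hReal hEval
  have hA : StA := stA hVal hZ stRR3
  have hBase : StBase := Pool.Agent.R827.PK.stBase hGood hMom
  have hBz : StBz := stBz hVal hMom hReal hEval
  have hInt : StInt := stInt hStep hMom hReal hEval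
  have hB : StB := Pool.Agent.R668.PKB.stB hVal stRR2 hBz hInt hBase hStep hPure hGood
  have hLin : StLin := stLin hMom hReal hEval
  have hC : StC := Pool.Agent.R569.PKC.stC
  exact final hComb stAdm (stMain hStep hPure hGood hA hB hLin hC)

end Pool.Agent.Results.MP_8cb80e_co.RealRoots
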